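import Pool.Agent.W941.MG.Stm

/-!
Project MG, part DIV: exponents of the values of the registers.
-/

namespace Pool.Agent.W933.MG

open MvPolynomial Pool.Agent.W941.MG

set_option autoImplicit false

/-- scaling of one variable -/
noncomputable def zt {d : ℕ} (ω : ℂ) (j0 : Fin d) : MvPolynomial (Fin d) ℂ →ₐ[ℂ] MvPolynomial (Fin d) ℂ :=
  aeval (fun j => C (if j = j0 then ω else 1) * X j)

theorem zt_monomial {d : ℕ} (ω : ℂ) (j0 : Fin d) (s : Fin d →₀ ℕ) (c : ℂ) :
    zt ω j0 (monomial s c) = C (ω ^ (s j0)) * monomial s c := by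
  unfold zt
  rw [aeval_monomial]
  have h1 : (s.prod fun i k => (C (if i = j0 then ω else 1) * X i : MvPolynomial (Fin d) ℂ) ^ k) =
      C (ω ^ (s j0)) * s.prod fun i k => (X i : MvPolynomial (Fin d) ℂ) ^ k := by
    simp only [mul_pow]
    rw [Finsupp.prod_mul]
    congr 1
    rw [Finsupp.prod_fintype _ _ (fun i => pow_zero _), Finset.prod_eq_single j0]
    · rw [if_pos rfl, C_pow]
    · intro b _ hb
      rw [if_neg hb, C_1, one_pow]
    · intro h
      exact absurd (Finset.mem_univ _) h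
  rw [h1, monomial_eq, algebraMap_eq]
  ring

theorem coeff_zt {d : ℕ} (ω : ℂ) (j0 : Fin d) (a : Fin d →₀ ℕ) (p : MvPolynomial (Fin d) ℂ) :
    coeff a (zt ω j0 p) = ω ^ (a j0) * coeff a p := by
  induction p using MvPolynomial.induction_on' with
  | monomial s c =>
    rw [zt_monomial, coeff_C_mul]
    by_cases h : s = a
    · rw [h]
    · rw [coeff_monomial, if_neg h, mul_zero, mul_zero]
  | add p q hp hq => rw [map_add, coeff_add, coeff_add, hp, hq, mul_add]

theorem rot (m : ℕ) (ω : ℂ) (hω : ω ^ m = 1) (l : Fin m) :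
    ω ^ (finRotate m l : ℕ) = ω ^ (l : ℕ) * ω := by
  obtain _ | m := m
  · exact l.elim0
  · rw [finRotate_apply, Fin.val_add_one, ← pow_succ]
    split_ifs with h
    · rw [pow_zero, h, Fin.val_last, hω]
    · rfl

theorem val2 {b : ℕ} {m : Fin b → ℕ} {s : Σ j, Fin (m j)} {j : Fin b} {l : Fin (m j)}
    (h : s = ⟨j, l⟩) : (s.2 : ℕ) = (l : ℕ) := by
  subst h
  rfl

theorem div_stmt : DivStmt := by
  intro b n N A m e ω hm hω f hf i a j0 hj ha
  obtain ⟨sg, hsg⟩ : ∃ sg : ∀ j : Fin b, Equiv.Perm (Fin (m j)),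
      sg = fun j => if j = j0 then finRotate (m j) else Equiv.refl _ := ⟨_, rfl⟩
  obtain ⟨π, hπ⟩ : ∃ π : Equiv.Perm (Fin n),
      π = (e.trans (Equiv.sigmaCongrRight sg)).trans e.symm := ⟨_, rfl⟩
  have hin : ∀ i j l, e i = ⟨j, l⟩ → e (π i) = ⟨j, sg j l⟩ := by
    intro i j l h
    rw [hπ]
    simp [h]
  have htm : ∀ (x : Fin b → N) i c, zt (ω j0) j0 (tm e ω A i c x) = tm e ω A (π i) c x := by
    intro x i c
    rcases hi : e i with ⟨j, l⟩
    simp only [tm, hi, hin i j l hi]
    by_cases h : c ∈ A j (x j)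
    · rw [if_pos h, if_pos h, map_mul, zt, aeval_C, aeval_X, algebraMap_eq, val2 hi,
        val2 (hin i j l hi), hsg]
      by_cases hj : j = j0
      · subst hj
        simp only [if_true]
        rw [rot (m j) (ω j) (hω j).pow_eq_one, C_mul]
        ring
      · simp only [if_neg hj, Equiv.refl_apply]
        rw [C_1, one_mul]
    · rw [if_neg h, if_neg h, map_zero]
  have hπi : π i = i := by
    apply e.injective
    rcases hi : e i with ⟨j, l⟩
    rw [hin i j l hi, hsg]
    have hjj : j ≠ j0 := by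
      rw [hi] at hj
      exact hj.symm
    simp only [if_neg hjj, Equiv.refl_apply]
  funext x
  have hev : ∀ q : MvPolynomial (Fin n × Fin n) ℂ,
      (aeval (fun p : Fin n × Fin n => tm e ω A p.1 p.2) q) x =
        aeval (fun p : Fin n × Fin n => tm e ω A p.1 p.2 x) q := by
    intro q
    have := comp_aeval_apply (fun p : Fin n × Fin n => tm e ω A p.1 p.2)
      (Pi.evalAlgHom ℂ (fun _ : Fin b → N => MvPolynomial (Fin b) ℂ) x) q
    exact this
  have hz : zt (ω j0) j0 (aeval (fun p : Fin n × Fin n => tm e ω A p.1 p.2 x) (f i)) =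
      aeval (fun p : Fin n × Fin n => tm e ω A p.1 p.2 x) (f i) := by
    rw [comp_aeval_apply]
    conv_rhs => rw [← hπi, ← hf π i, aeval_rename]
    congr 2
    funext p
    exact htm x p.1 p.2
  have h1 := coeff_zt (ω j0) j0 a (aeval (fun p : Fin n × Fin n => tm e ω A p.1 p.2 x) (f i))
  rw [hz] at h1
  show coeff a ((aeval (fun p : Fin n × Fin n => tm e ω A p.1 p.2) (f i)) x) = 0
  rw [hev]
  by_contra hne
  have h2 : (ω j0) ^ (a j0) = 1 := by
    have h3 : ((ω j0) ^ (a j0) - 1) *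
        coeff a (aeval (fun p : Fin n × Fin n => tm e ω A p.1 p.2 x) (f i)) = 0 := by
      rw [sub_mul, one_mul, ← h1, sub_self]
    rcases mul_eq_zero.1 h3 with h | h
    · exact sub_eq_zero.1 h
    · exact absurd h hne
  exact ha ((hω j0).dvd_of_pow_eq_one _ h2)

end Pool.Agent.W933.MG
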